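import Pool.Agent.Helper28.EP.ADefs

/-!
# MP_36e183_co, block A2: facts about word operators
-/

set_option autoImplicit false

namespace Pool.Agent.EP

open MvPolynomial

section A2

variable {K : Type*} [Field K] {V : Type*} [AddCommGroup V] [Module K V]

/-- Locally finite sequences of operators. -/
def A2_LF (A : ℕ → Module.End K V) : Prop := ∀ g : V, ∃ N : ℕ, ∀ i, N ≤ i → A i g = 0

theorem A2_lsum_eq {A : ℕ → Module.End K V} (hA : A2_LF A) (g : V) (N : ℕ)
    (hN : ∀ i, N ≤ i → A i g = 0) : lsum A g = ∑ i ∈ Finset.range N, A i g := by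
  have hfin : ∀ g : V, {i | A i g ≠ 0}.Finite := by
    intro g
    obtain ⟨N, hN⟩ := hA g
    refine (Finset.range N).finite_toSet.subset fun i hi => ?_
    rw [Finset.mem_coe, Finset.mem_range]
    by_contra hc
    exact hi (hN i (not_lt.1 hc))
  have h1 : lsum A g = ∑ᶠ i, A i g := by
    unfold lsum
    rw [dif_pos hfin]
    rfl
  rw [h1]
  refine finsum_eq_sum_of_support_subset _ fun i hi => ?_
  rw [Finset.mem_coe, Finset.mem_range]
  by_contra hc
  exact hi (hN i (not_lt.1 hc))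

variable {Fil : ℤ → Submodule K V} {D : ℤ → Module.End K V} {θ : K}

theorem A2_zero (hF : FilOp Fil D) {n : ℤ} (hn : n < 0) {g : V} (hg : g ∈ Fil n) : g = 0 := by
  rw [hF.neg n hn] at hg
  exact (Submodule.mem_bot K).1 hg

/-- The terms of the sum defining `Wf (k' :: v) k`. -/
noncomputable def A2_T (D : ℤ → Module.End K V) (θ : K) (k k' : ℤ) (v : List ℤ) (i : ℕ) :
    Module.End K V := θ ^ i • (D (k + i) * Wf D θ v (k' - i))

theorem A2_T_apply (k k' : ℤ) (v : List ℤ) (i : ℕ) (g : V) :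
    A2_T D θ k k' v i g = θ ^ i • D (k + i) (Wf D θ v (k' - i) g) := rfl

theorem A2_Wf_cons (k k' : ℤ) (v : List ℤ) : Wf D θ (k' :: v) k = lsum (A2_T D θ k k' v) := rfl

theorem A2_T_zero (hF : FilOp Fil D) {v : List ℤ}
    (hv : ∀ (k n : ℤ) (g : V), g ∈ Fil n → Wf D θ v k g ∈ Fil (n + k + v.sum)) (k k' : ℤ) {n : ℤ}
    {g : V} (hg : g ∈ Fil n) {i : ℕ} (hi : n + k' + v.sum < i) : A2_T D θ k k' v i g = 0 := by
  rw [A2_T_apply]
  have h1 : Wf D θ v (k' - i) g = 0 := A2_zero hF (n := n + (k' - i) + v.sum) (by omega) (hv _ _ _ hg)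
  rw [h1, map_zero, smul_zero]

theorem A2_T_LF (hF : FilOp Fil D) {v : List ℤ}
    (hv : ∀ (k n : ℤ) (g : V), g ∈ Fil n → Wf D θ v k g ∈ Fil (n + k + v.sum)) (k k' : ℤ) :
    A2_LF (A2_T D θ k k' v) := by
  intro g
  obtain ⟨n, hn⟩ := hF.ex g
  refine ⟨(n + k' + v.sum + 1).toNat, fun i hi => A2_T_zero hF hv k k' hn ?_⟩
  omega

theorem A2_fil (hF : FilOp Fil D) (θ : K) (v : List ℤ) : ∀ (k n : ℤ) (g : V), g ∈ Fil n →
    Wf D θ v k g ∈ Fil (n + k + v.sum) := by
  induction v with
  | nil =>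
    intro k n g hg
    rw [List.sum_nil, add_zero]
    exact hF.map k n g hg
  | cons k' v ih =>
    intro k n g hg
    obtain ⟨N, hN⟩ := A2_T_LF hF ih k k' g
    rw [A2_Wf_cons, A2_lsum_eq (A2_T_LF hF ih k k') g N hN]
    refine Submodule.sum_mem _ fun i _ => ?_
    rw [A2_T_apply]
    refine Submodule.smul_mem _ _ ?_
    have h1 := hF.map (k + i) _ _ (ih (k' - i) n g hg)
    have h2 : n + (k' - i) + v.sum + (k + i) = n + k + (k' :: v).sum := by
      rw [List.sum_cons]
      ring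
    rwa [h2] at h1

theorem A2_LF' (hF : FilOp Fil D) (θ : K) (k k' : ℤ) (v : List ℤ) : A2_LF (A2_T D θ k k' v) :=
  A2_T_LF hF (A2_fil hF θ v) k k'

theorem A2_van (hF : FilOp Fil D) (θ : K) (u v : List ℤ) (hv : v ≠ []) (n : ℤ) (g : V)
    (hg : g ∈ Fil n) (hn : n + v.sum < 0) : ∀ k : ℤ, Wf D θ (u ++ v) k g = 0 := by
  induction u with
  | nil =>
    intro k
    obtain ⟨k', v', rfl⟩ := List.exists_cons_of_ne_nil hv
    rw [List.nil_append, A2_Wf_cons, A2_lsum_eq (A2_LF' hF θ k k' v') g 0, Finset.sum_range_zero]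
    intro i _
    refine A2_T_zero hF (A2_fil hF θ v') k k' hg ?_
    rw [List.sum_cons] at hn
    omega
  | cons k' u ih =>
    intro k
    rw [List.cons_append, A2_Wf_cons, A2_lsum_eq (A2_LF' hF θ k k' (u ++ v)) g 0,
      Finset.sum_range_zero]
    intro i _
    rw [A2_T_apply, ih, map_zero, smul_zero]

theorem A2_recu (hF : FilOp Fil D) (θ : K) (k k' : ℤ) (v : List ℤ) :
    Wf D θ (k' :: v) k = D k * Wf D θ v k' + θ • Wf D θ ((k' - 1) :: v) (k + 1) := by
  refine LinearMap.ext fun g => ?_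
  obtain ⟨N, hN⟩ := A2_LF' hF θ k k' v g
  obtain ⟨N', hN'⟩ := A2_LF' hF θ (k + 1) (k' - 1) v g
  rw [LinearMap.add_apply, LinearMap.smul_apply, A2_Wf_cons, A2_Wf_cons,
    A2_lsum_eq (A2_LF' hF θ k k' v) g (max N N' + 1) (fun i hi => hN i (by omega)),
    A2_lsum_eq (A2_LF' hF θ (k + 1) (k' - 1) v) g (max N N') (fun i hi => hN' i (by omega)),
    Finset.sum_range_succ', Finset.smul_sum, add_comm]
  congr 1
  · rw [A2_T_apply, pow_zero, one_smul, Nat.cast_zero, add_zero, sub_zero]
    rfl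
  · refine Finset.sum_congr rfl fun i _ => ?_
    rw [A2_T_apply, A2_T_apply, smul_smul, ← pow_succ']
    have h1 : k + ((i + 1 : ℕ) : ℤ) = k + 1 + i := by push_cast; ring
    have h2 : k' - ((i + 1 : ℕ) : ℤ) = k' - 1 - i := by push_cast; ring
    rw [h1, h2]

theorem A2_cut (hF : FilOp Fil D) (θ : K) (x : List ℤ) (a b : ℤ) (y : List ℤ) : ∀ k : ℤ,
    Wf D θ (x ++ [a]) k * Wf D θ y b =
      Wf D θ (x ++ a :: b :: y) k - θ • Wf D θ (x ++ (a + 1) :: (b - 1) :: y) k := by
  induction x with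
  | nil =>
    intro k
    refine LinearMap.ext fun g => ?_
    simp only [List.nil_append]
    obtain ⟨N1, hN1⟩ := A2_LF' hF θ k a [] (Wf D θ y b g)
    obtain ⟨N2, hN2⟩ := A2_LF' hF θ k a (b :: y) g
    obtain ⟨N3, hN3⟩ := A2_LF' hF θ k (a + 1) ((b - 1) :: y) g
    rw [LinearMap.sub_apply, LinearMap.smul_apply, Module.End.mul_apply, A2_Wf_cons,
      A2_Wf_cons k a (b :: y), A2_Wf_cons k (a + 1) ((b - 1) :: y),
      A2_lsum_eq (A2_LF' hF θ k a []) _ (max N1 (max N2 N3)) (fun i hi => hN1 i (by omega)),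
      A2_lsum_eq (A2_LF' hF θ k a (b :: y)) _ (max N1 (max N2 N3)) (fun i hi => hN2 i (by omega)),
      A2_lsum_eq (A2_LF' hF θ k (a + 1) ((b - 1) :: y)) _ (max N1 (max N2 N3))
        (fun i hi => hN3 i (by omega)), Finset.smul_sum, ← Finset.sum_sub_distrib]
    refine Finset.sum_congr rfl fun i _ => ?_
    rw [A2_T_apply, A2_T_apply, A2_T_apply]
    have h1 := LinearMap.congr_fun (A2_recu hF θ (a - i) b y) g
    rw [LinearMap.add_apply, LinearMap.smul_apply, Module.End.mul_apply] at h1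
    have h2 : Wf D θ [] (a - i) (Wf D θ y b g) =
        Wf D θ (b :: y) (a - i) g - θ • Wf D θ ((b - 1) :: y) (a - i + 1) g := by
      rw [h1]
      exact (add_sub_cancel_right _ _).symm
    have h3 : a + 1 - (i : ℤ) = a - i + 1 := by ring
    rw [h2, h3, map_sub, map_smul, smul_sub, smul_comm θ (θ ^ i)]
  | cons k' x ih =>
    intro k
    refine LinearMap.ext fun g => ?_
    simp only [List.cons_append]
    obtain ⟨N1, hN1⟩ := A2_LF' hF θ k k' (x ++ [a]) (Wf D θ y b g)
    obtain ⟨N2, hN2⟩ := A2_LF' hF θ k k' (x ++ a :: b :: y) g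
    obtain ⟨N3, hN3⟩ := A2_LF' hF θ k k' (x ++ (a + 1) :: (b - 1) :: y) g
    rw [LinearMap.sub_apply, LinearMap.smul_apply, Module.End.mul_apply, A2_Wf_cons,
      A2_Wf_cons k k' (x ++ a :: b :: y), A2_Wf_cons k k' (x ++ (a + 1) :: (b - 1) :: y),
      A2_lsum_eq (A2_LF' hF θ k k' (x ++ [a])) _ (max N1 (max N2 N3))
        (fun i hi => hN1 i (by omega)),
      A2_lsum_eq (A2_LF' hF θ k k' (x ++ a :: b :: y)) _ (max N1 (max N2 N3))
        (fun i hi => hN2 i (by omega)),
      A2_lsum_eq (A2_LF' hF θ k k' (x ++ (a + 1) :: (b - 1) :: y)) _ (max N1 (max N2 N3))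
        (fun i hi => hN3 i (by omega)), Finset.smul_sum, ← Finset.sum_sub_distrib]
    refine Finset.sum_congr rfl fun i _ => ?_
    rw [A2_T_apply, A2_T_apply, A2_T_apply]
    have h1 := LinearMap.congr_fun (ih (k' - i)) g
    rw [LinearMap.sub_apply, LinearMap.smul_apply, Module.End.mul_apply] at h1
    rw [h1, map_sub, map_smul, smul_sub, smul_comm θ (θ ^ i)]

theorem A2_uniq (θ : K) (X : ℤ → Module.End K V) (h1 : ∀ i, X i = θ • X (i + 1))
    (h2 : ∀ g : V, ∃ N : ℤ, ∀ i, N ≤ i → X i g = 0) (i : ℤ) : X i = 0 := by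
  have h3 : ∀ (j : ℕ) (i : ℤ), X i = θ ^ j • X (i + j) := by
    intro j
    induction j with
    | zero => intro i; rw [pow_zero, one_smul, Nat.cast_zero, add_zero]
    | succ j ih =>
      intro i
      rw [ih i, h1 (i + j), smul_smul, ← pow_succ]
      congr 2
      push_cast
      ring
  refine LinearMap.ext fun g => ?_
  obtain ⟨N, hN⟩ := h2 g
  rw [h3 (N - i).toNat i, LinearMap.smul_apply, hN _ (by omega), smul_zero]
  rfl

theorem wFacts {V : Type*} [AddCommGroup V] [Module K V] (Fil : ℤ → Submodule K V)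
    (D : ℤ → Module.End K V) (θ : K) (hF : FilOp Fil D) : WFacts Fil D θ where
  fil := by
    intro v n g hg
    cases v with
    | nil =>
      rw [List.sum_nil, add_zero]
      exact hg
    | cons k v =>
      rw [List.sum_cons, ← add_assoc]
      exact A2_fil hF θ v k n g hg
  van := by
    intro u v hv n g hg hn
    cases u with
    | nil =>
      obtain ⟨k, v', rfl⟩ := List.exists_cons_of_ne_nil hv
      rw [List.sum_cons, ← add_assoc] at hn
      exact A2_zero hF hn (A2_fil hF θ v' k n g hg)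
    | cons k u => exact A2_van hF θ u v hv n g hg hn k
  recu := fun k k' v => A2_recu hF θ k k' v
  cut := by
    intro x y a b
    cases x with
    | nil =>
      have h1 := A2_recu hF θ a b y
      exact eq_sub_of_add_eq h1.symm
    | cons k x => exact A2_cut hF θ x a b y k
  uniq := fun X h1 h2 => A2_uniq θ X h1 h2

/-- The word with an additional last letter `0` (uses the facts of A0 as hypotheses). -/
theorem Fw_append_zero (q t : K) (hW : WFacts (EP.Fil K) (Dt q t) (q * t))
    (h1 : (1 : Lam K) ∈ EP.Fil K 0) (hD : ∀ k, Dt q t k 1 = e K k) (v : List ℤ) :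
    Fw q t (v ++ [0]) = Fw q t v := by
  have key : ∀ (v : List ℤ) (k : ℤ), W (Dt q t) (q * t) (k :: (v ++ [0])) 1 =
      W (Dt q t) (q * t) (k :: v) 1 := by
    intro v
    induction v with
    | nil =>
      intro k
      rw [List.nil_append, hW.recu]
      have h2 : W (Dt q t) (q * t) [k + 1, 0 - 1] 1 = 0 :=
        hW.van [k + 1] [0 - 1] (by simp) 0 1 h1 (by simp)
      rw [LinearMap.add_apply, LinearMap.smul_apply, h2, smul_zero, add_zero, Module.End.mul_apply]
      have h3 : W (Dt q t) (q * t) [0] 1 = 1 := hD 0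
      rw [h3]
      rfl
    | cons k' v ih =>
      intro k
      rw [List.cons_append]
      have h4 : ∀ (j : ℕ) (k k' : ℤ), W (Dt q t) (q * t) (k :: k' :: (v ++ [0])) 1 -
          W (Dt q t) (q * t) (k :: k' :: v) 1 = (q * t) ^ j •
            (W (Dt q t) (q * t) ((k + j) :: (k' - j) :: (v ++ [0])) 1 -
              W (Dt q t) (q * t) ((k + j) :: (k' - j) :: v) 1) := by
        intro j
        induction j with
        | zero => intro k k'; simp
        | succ j ihj =>
          intro k k'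
          rw [hW.recu k k' (v ++ [0]), hW.recu k k' v, LinearMap.add_apply, LinearMap.add_apply,
            LinearMap.smul_apply, LinearMap.smul_apply, Module.End.mul_apply, Module.End.mul_apply,
            ih, add_sub_add_left_eq_sub, ← smul_sub, ihj (k + 1) (k' - 1), smul_smul, ← pow_succ']
          have h5 : k + 1 + (j : ℤ) = k + ((j + 1 : ℕ) : ℤ) := by push_cast; ring
          have h6 : k' - 1 - (j : ℤ) = k' - ((j + 1 : ℕ) : ℤ) := by push_cast; ring
          rw [h5, h6]
      have h7 := h4 (k' + v.sum + 1).toNat k k'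
      have h8 : ∀ w : List ℤ, w.sum = v.sum → W (Dt q t) (q * t)
          ((k + ((k' + v.sum + 1).toNat : ℤ)) :: (k' - ((k' + v.sum + 1).toNat : ℤ)) :: w) 1 = 0 := by
        intro w hw
        refine hW.van [k + ((k' + v.sum + 1).toNat : ℤ)] ((k' - ((k' + v.sum + 1).toNat : ℤ)) :: w)
          (by simp) 0 1 h1 ?_
        rw [List.sum_cons, hw]
        omega
      rw [h8 (v ++ [0]) (by simp), h8 v rfl, sub_zero, smul_zero] at h7
      exact sub_eq_zero.1 h7
  unfold Fw Dw
  cases v with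
  | nil => exact hD 0
  | cons k v => exact key v k

end A2

end Pool.Agent.EP
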