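import Pool.Agent.Helper94.EP.Fin
import Pool.Agent.Helper98.TR.Main
import Pool.Agent.Helper14.PF.CoreW
import Pool.Agent.Helper98.PG.Core

/-!
Project EP (MP_b8862a_ag): the extreme multiplicity is an odd prime `p` with `2 n ≤ p ^ 2`: the Lie theorem and the core
statement, from the existence of two roots of the highest possible level.
-/

set_option linter.unusedSectionVars false
set_option linter.unusedVariables false

open Module LieModule LieAlgebra LieAlgebra.IsKilling MTP.MF PF PF.CC PG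

attribute [local instance 100] LieRing.ofAssociativeRing

open Pool.Agent.Helper54.MT (semisimple_of_diag exists_cartan_end killing_of)

namespace EP

variable {V : Type*} [AddCommGroup V] [Module ℂ V] [FiniteDimensional ℂ V]

/-- Two independent elements of the highest possible degree. -/
theorem two98 {ω : LinearMap.BilinForm ℂ V} (hnd : ω.Nondegenerate)
    (L : LieSubalgebra ℂ (Module.End ℂ V)) [hS : LieAlgebra.IsSimple ℂ L]
    (hirr : ∀ W : Submodule ℂ V, (∀ x ∈ L, ∀ u ∈ W, x u ∈ W) → W = ⊥ ∨ W = ⊤)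
    (hsk : ∀ x ∈ L, ∀ u v, ω (x u) v = -ω u (x v)) {y : Module.End ℂ V} (hy : y ∈ L)
    (hdiag : (⨆ c : ℂ, Module.End.eigenspace y c) = ⊤) {q : ℚ} (hq : 0 < q)
    (hev : ∀ c : ℂ, Module.End.eigenspace y c ≠ ⊥ → ∃ m : ℕ, c = ((q - m : ℚ) : ℂ)) {p : ℕ}
    (hp : finrank ℂ (Module.End.eigenspace y (q : ℂ)) = p) (pp : p.Prime) (p3 : 3 ≤ p)
    (h2 : 2 * p < finrank ℂ V) (h3 : 2 * finrank ℂ V ≤ p ^ 2) :
    ∃ x ∈ L, ∃ x' ∈ L, y * x - x * y = (2 * q : ℂ) • x ∧ y * x' - x' * y = (2 * q : ℂ) • x' ∧ x' ≠ 0 ∧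
      ∀ c : ℂ, x ≠ c • x' := by
  classical
  have hVn : Nontrivial V := by
    rw [← finrank_pos_iff (R := ℂ)]
    omega
  have hk : IsKilling ℂ L := by
    refine killing_of (ω := ω) hnd ⟨?_, ?_, ?_⟩
    · intro x hx y hy
      have := L.lie_mem hx hy
      exact this
    · intro x hx u v
      exact hsk x hx u v
    · intro W hW
      exact hirr W hW
  obtain ⟨H, hH, hyH⟩ := exists_cartan_end (L := L) ⟨y, hy⟩ (semisimple_of_diag hdiag)
  have hirrR : (rootSystem H).IsIrreducible := inferInstance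
  have hne : Nonempty H.root := by
    by_contra hcon
    rw [not_nonempty_iff] at hcon
    have hN : Nontrivial H := RootPairing.IsIrreducible.nontrivial' (rootSystem H)
    have h1 : (⊤ : Submodule ℂ H) = ⊥ := by
      have h2 : (rootSystem H).corootSpan ℂ = ⊤ := RootPairing.IsRootSystem.span_coroot_eq_top
      rw [← h2, RootPairing.corootSpan, Set.range_eq_empty, Submodule.span_empty]
    exact bot_ne_top h1.symm
  have hirr' : ∀ W : Submodule ℂ V, (∀ x : L, ∀ u ∈ W, ⁅x, u⁆ ∈ W) → W = ⊥ ∨ W = ⊤ :=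
    fun W hW => hirr W fun z hz w hw => hW ⟨z, hz⟩ w hw
  have hsk' : ∀ (x : L) (u v : V), ω ⁅x, u⁆ v = - ω u ⁅x, v⁆ := by
    intro x u v
    exact hsk x x.2 u v
  have hfaith : ∀ x : L, (∀ u : V, ⁅x, u⁆ = 0) → x = 0 := by
    intro x hx
    apply Subtype.ext
    ext u
    exact hx u
  obtain ⟨n, ⟨B⟩⟩ := exists_WB (V := V) (H := H) hirr'
  have hcard : Fintype.card (Fin n) = finrank ℂ V := (finrank_eq_card_basis B.v).symm
  have hneI : Nonempty (Fin n) := by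
    rw [← Fintype.card_pos_iff, hcard]
    exact finrank_pos
  obtain ⟨D, hD⟩ : ∃ D : H, ((D : L) : Module.End ℂ V) = y := ⟨⟨⟨y, hy⟩, hyH⟩, rfl⟩
  have hlie : ∀ i, y (B.v i) = B.w i D • B.v i := fun i => by
    have h1 := B.lie_v i D
    rw [← hD]
    exact h1
  have hw : ∀ i, ∃ m : ℕ, B.w i D = ((q - m : ℚ) : ℂ) := by
    intro i
    apply hev
    rw [Submodule.ne_bot_iff]
    exact ⟨B.v i, Module.End.mem_eigenspace_iff.2 (hlie i), B.v.ne_zero i⟩
  have hs' : Nat.card {i // B.w i D = (q : ℂ)} = p := by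
    rw [← hp, finrank_eig_eq B.v y (fun i => B.w i D) hlie (q : ℂ)]
  have hint : ∀ α : H.root, ∃ k : ℤ, α.1 D = (k : ℂ) := by
    intro α
    obtain ⟨i, j, hij⟩ := B.root_apply hfaith α
    obtain ⟨a, ha⟩ := hw i
    obtain ⟨b, hb⟩ := hw j
    have h1 := hij D
    rw [ha, hb] at h1
    refine ⟨(a : ℤ) - b, ?_⟩
    push_cast at h1 ⊢
    linear_combination -h1
  obtain ⟨α, β, hαβ, hα, hβ⟩ := roots94 B hirr' hfaith hnd hsk' hint hq hw pp p3 hs' (by rw [hcard]; exact h2)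
    (by rw [hcard]; exact h3)
  obtain ⟨e, f, ht, he, hf⟩ := MTP.MF.exists_triple (H := H) α
  obtain ⟨e', f', ht', he', hf'⟩ := MTP.MF.exists_triple (H := H) β
  have key : ∀ {α : H.root} {e : L}, e ∈ rootSpace H α.1 → α.1 D = (2 * q : ℂ) →
      y * (e : Module.End ℂ V) - e * y = (2 * q : ℂ) • (e : Module.End ℂ V) := by
    intro α e he hα
    have h1 : ⁅(D : L), e⁆ = α.1 D • e := lie_eq_smul_of_mem_rootSpace he D
    have h3 := congrArg (fun z : L => (z : Module.End ℂ V)) h1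
    have h4 : ((⁅(D : L), e⁆ : L) : Module.End ℂ V) = ⁅((D : L) : Module.End ℂ V), (e : Module.End ℂ V)⁆ := rfl
    simp only [h4, hD, LieRing.of_associative_ring_bracket] at h3
    rw [h3, hα]
    rfl
  refine ⟨e, e.2, e', e'.2, key he hα, key he' hβ, fun h0 => ht'.e_ne_zero (Subtype.ext h0), ?_⟩
  intro c hc
  -- the two root vectors are independent
  have h1 : e = c • e' := Subtype.ext hc
  apply hαβ
  apply Subtype.ext
  have h5 : ∀ x : H, α.1 x = β.1 x := by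
    intro x
    have h6 : ⁅(x : L), e⁆ = α.1 x • e := lie_eq_smul_of_mem_rootSpace he x
    have h7 : ⁅(x : L), e'⁆ = β.1 x • e' := lie_eq_smul_of_mem_rootSpace he' x
    have h8 : (α.1 x - β.1 x) • e = 0 := by
      rw [sub_smul, ← h6, h1, lie_smul, h7, smul_comm, sub_self]
    exact sub_eq_zero.1 ((smul_eq_zero.1 h8).resolve_right ht.e_ne_zero)
  exact LieModule.Weight.ext h5
end EP

namespace MH

open Matrix

/-- **Two independent elements of the extreme degree**, for matrices: the extreme eigenvalue `t > 0` of `h` has a prime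
multiplicity `p ≥ 3` with `2 p < n` and `2 n ≤ p ^ 2`, and all eigenvalues are in `t - 2 ℕ`. -/
theorem ep_two98 {n : Type*} [Fintype n] [DecidableEq n] {Q' Qi : Matrix n n ℂ} (hQ1 : Q' * Qi = 1) (hQ2 : Qi * Q' = 1)
    {L : Submodule ℂ (Matrix n n ℂ)} (hbr : ∀ X ∈ L, ∀ Y ∈ L, X * Y - Y * X ∈ L)
    (hirr : ∀ W : Submodule ℂ (n → ℂ), (∀ X ∈ L, ∀ w ∈ W, X *ᵥ w ∈ W) → W = ⊥ ∨ W = ⊤)
    (hsk : ∀ X ∈ L, Xᵀ * Q' + Q' * X = 0) (hsmp : Smp L) {h : Matrix n n ℂ} (hh : h ∈ L)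
    {E : ℝ → Matrix n n ℂ} {Λ : Finset ℝ} (hE : SD h E Λ) {t : ℝ} (ht0 : 0 < t) {k : ℤ} (htk : t = k)
    (hlev : ∀ μ, E μ ≠ 0 → ∃ m : ℕ, μ = t - 2 * m) {p : ℕ} (hp : (E t).rank = p) (pp : p.Prime) (p3 : 3 ≤ p)
    (h2 : 2 * p < Fintype.card n) (h3 : 2 * Fintype.card n ≤ p ^ 2) :
    ¬ (Module.finrank ℂ (Ld L h (2 * t)) ≤ 1) := by
  classical
  intro hle
  have hcd : 2 ≤ Fintype.card n := by omega
  obtain ⟨q, hq⟩ : ∃ q : ℚ, q = (k : ℚ) / 2 := ⟨_, rfl⟩
  have hqt : (q : ℝ) = t / 2 := by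
    rw [hq, htk]
    push_cast
    ring
  have hqc : ((q : ℚ) : ℂ) = ((t / 2 : ℝ) : ℂ) := by
    rw [← hqt]
    push_cast
    rfl
  have hq0 : 0 < q := by
    have : (0 : ℝ) < q := by rw [hqt]; linarith
    exact_mod_cast this
  -- the grading element
  have hE2 : SD (((1 / 2 : ℝ) : ℂ) • h) (fun μ => E (2 * μ)) (Λ.image fun μ => μ / 2) := by
    refine ⟨fun μ ν => ?_, ?_, ?_⟩
    · rw [hE.mul]
      by_cases hμ : μ = ν
      · rw [if_pos hμ, if_pos (by rw [hμ])]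
      · rw [if_neg hμ, if_neg (fun h => hμ (by linarith))]
    · rw [← hE.sum, Finset.sum_image (fun a _ b _ h => by linarith)]
      refine Finset.sum_congr rfl fun μ _ => ?_
      rw [mul_div_cancel₀ _ (two_ne_zero)]
    · rw [hE.eq, Finset.smul_sum, Finset.sum_image (fun a _ b _ h => by linarith)]
      refine Finset.sum_congr rfl fun μ _ => ?_
      rw [mul_div_cancel₀ _ (two_ne_zero), smul_smul]
      push_cast
      congr 1
      ring
  have hfin : Module.finrank ℂ (Module.End.eigenspace (Matrix.toLin' (((1 / 2 : ℝ) : ℂ) • h)) ((q : ℚ) : ℂ)) = p := by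
    rw [hqc, hE2.finrank_eig98]
    rw [show (2 : ℝ) * (t / 2) = t by ring]
    exact hp
  obtain ⟨x, hx, x', hx', h4, h5, h6, h7⟩ := EP.two98 (form_nondeg98 hQ1) (lieOf L hbr)
    (hS := lieOf_simple hirr hcd hsmp) (lieOf_irr hirr) (lieOf_sk hsk)
    (y := Matrix.toLin' (((1 / 2 : ℝ) : ℂ) • h)) (toLin_mem_lieOf (L.smul_mem _ hh)) hE2.iSup_eig98 hq0 (by
      intro c hc
      obtain ⟨μ, hμ, rfl⟩ := hE2.eig_ne98 hc
      obtain ⟨m, hm⟩ := hlev _ hμ
      refine ⟨m, ?_⟩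
      have h11 : μ = t / 2 - m := by linarith
      rw [h11]
      push_cast at hqc ⊢
      rw [hqc]) hfin pp p3 (by rw [Module.finrank_fintype_fun_eq_card]; exact h2)
    (by rw [Module.finrank_fintype_fun_eq_card]; exact h3)
  rw [mem_lieOf] at hx hx'
  have key : ∀ z : Module.End ℂ (n → ℂ), LinearMap.toMatrix' z ∈ L →
      Matrix.toLin' (((1 / 2 : ℝ) : ℂ) • h) * z - z * Matrix.toLin' (((1 / 2 : ℝ) : ℂ) • h) = (2 * q : ℂ) • z →
      LinearMap.toMatrix' z ∈ Ld L h (2 * t) := by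
    intro z hz h8
    refine ⟨hz, ?_⟩
    have h9 := congrArg LinearMap.toMatrix' h8
    rw [map_sub, LinearMap.toMatrix'_mul, LinearMap.toMatrix'_mul, LinearMap.toMatrix'_toLin', map_smul, smul_mul_assoc,
      mul_smul_comm, ← smul_sub] at h9
    have h10 : ((2 : ℝ) : ℂ) • (((1 / 2 : ℝ) : ℂ) • (h * LinearMap.toMatrix' z - LinearMap.toMatrix' z * h)) =
        ((2 : ℝ) : ℂ) • ((2 * q : ℂ) • LinearMap.toMatrix' z) := by rw [h9]
    rw [smul_smul, smul_smul] at h10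
    have h11 : ((2 : ℝ) : ℂ) * (((1 / 2 : ℝ)) : ℂ) = 1 := by push_cast; ring
    have h12 : ((2 : ℝ) : ℂ) * (2 * q : ℂ) = ((2 * t : ℝ) : ℂ) := by
      rw [hqc]
      push_cast
      ring
    rw [h11, one_smul, h12] at h10
    exact h10
  obtain ⟨u, hu⟩ := finrank_le_one_iff.1 hle
  obtain ⟨c, hc⟩ := hu ⟨_, key x hx h4⟩
  obtain ⟨c', hc'⟩ := hu ⟨_, key x' hx' h5⟩
  have e1 : c • (u : Matrix n n ℂ) = LinearMap.toMatrix' x := congrArg Subtype.val hc
  have e2 : c' • (u : Matrix n n ℂ) = LinearMap.toMatrix' x' := congrArg Subtype.val hc'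
  have hc0 : c' ≠ 0 := by
    rintro rfl
    apply h6
    rw [zero_smul] at e2
    apply LinearMap.toMatrix'.injective
    rw [← e2, map_zero]
  apply h7 (c / c')
  apply LinearMap.toMatrix'.injective
  rw [map_smul, ← e2, smul_smul, div_mul_cancel₀ _ hc0, e1]

/-- The Lie algebra is everything that is skew for the form, symmetric or alternating, if the extreme eigenvalue `t > 0` of `h`
has a prime multiplicity `p ≥ 3` with `2 p < n` and `2 n ≤ p ^ 2`. -/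
theorem ep_full98 {n : Type*} [Fintype n] [DecidableEq n] {Q' Qi : Matrix n n ℂ} (hQ : Q'ᵀ = Q' ∨ Q'ᵀ = -Q')
    (hQ1 : Q' * Qi = 1) (hQ2 : Qi * Q' = 1)
    {L : Submodule ℂ (Matrix n n ℂ)} (hbr : ∀ X ∈ L, ∀ Y ∈ L, X * Y - Y * X ∈ L)
    (hirr : ∀ W : Submodule ℂ (n → ℂ), (∀ X ∈ L, ∀ w ∈ W, X *ᵥ w ∈ W) → W = ⊥ ∨ W = ⊤)
    (hsk : ∀ X ∈ L, Xᵀ * Q' + Q' * X = 0) (hsmp : Smp L) {h : Matrix n n ℂ} (hh : h ∈ L)
    {E : ℝ → Matrix n n ℂ} {Λ : Finset ℝ} (hE : SD h E Λ) {t : ℝ} (ht0 : 0 < t) {k : ℤ} (htk : t = k)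
    (hlev : ∀ μ, E μ ≠ 0 → ∃ m : ℕ, μ = t - 2 * m) {p : ℕ} (hp : (E t).rank = p) (pp : p.Prime) (p3 : 3 ≤ p)
    (h2 : 2 * p < Fintype.card n) (h3 : 2 * Fintype.card n ≤ p ^ 2) :
    ∀ X : Matrix n n ℂ, Xᵀ * Q' + Q' * X = 0 → X ∈ L := by
  classical
  have htop : ∀ μ, E μ ≠ 0 → μ ≤ t := by
    intro μ hμ
    obtain ⟨m, hm⟩ := hlev μ hμ
    rw [hm]
    have : (0 : ℝ) ≤ m := Nat.cast_nonneg m
    linarith
  have hsum : ∑ μ ∈ Λ, (E μ).rank = Fintype.card n := by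
    have h4 : ((∑ μ ∈ Λ, (E μ).rank : ℕ) : ℂ) = (Fintype.card n : ℂ) := by
      push_cast
      rw [Finset.sum_congr rfl fun μ _ => rank_eq_trace (e := E μ) (by rw [hE.mul, if_pos rfl]), ← Matrix.trace_sum,
        hE.sum, Matrix.trace_one]
    exact_mod_cast h4
  have hEn : (E (-t)).rank = p := by
    rw [E_symm98 hQ1 hQ2 (hsk h hh) hE t]
    have u1 : IsUnit Qi := ⟨⟨Qi, Q', hQ2, hQ1⟩, rfl⟩
    have u2 : IsUnit Q' := ⟨⟨Q', Qi, hQ1, hQ2⟩, rfl⟩
    rw [Matrix.rank_mul_eq_left_of_isUnit_det _ _ ((Matrix.isUnit_iff_isUnit_det _).1 u2),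
      Matrix.rank_mul_eq_right_of_isUnit_det _ _ ((Matrix.isUnit_iff_isUnit_det _).1 u1), Matrix.rank_transpose, hp]
  have hmid : ∃ μ, μ ≠ t ∧ μ ≠ -t ∧ E μ ≠ 0 := by
    by_contra hcon
    push Not at hcon
    have h4 : ∑ μ ∈ Λ, (E μ).rank ≤ ∑ μ ∈ ({t, -t} : Finset ℝ), (E μ).rank := by
      refine Finset.sum_le_sum_of_ne_zero fun μ hμ hne => ?_
      rw [Finset.mem_insert, Finset.mem_singleton]
      by_contra h5
      push Not at h5
      apply hne
      rw [hcon μ h5.1 h5.2, Matrix.rank_zero]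
    rw [Finset.sum_pair (by linarith), hp, hEn, hsum] at h4
    omega
  have htwo := ep_two98 hQ1 hQ2 hbr hirr hsk hsmp hh hE ht0 htk hlev hp pp p3 h2 h3
  rcases hQ with hQs | hQs
  · rcases gap_levels98 hQs hQ1 hQ2 hbr hirr hsk hsmp hh hE ht0 htop hmid with h4 | ⟨h4, -⟩ | h4
    · exact absurd (by rw [h4, finrank_bot]; exact Nat.zero_le _) htwo
    · exact absurd h4.le htwo
    · exact h4
  · rcases gap_levelsS98 hQs hQ1 hQ2 hbr hirr hsk hsmp hh hE ht0 htop hmid with h4 | ⟨h4, -⟩ | h4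
    · exact absurd (by rw [h4, finrank_bot]; exact Nat.zero_le _) htwo
    · exact absurd h4.le htwo
    · exact h4

/-- The core statement if the extreme number is an odd prime `p` with `2 n ≤ p ^ 2`. -/
theorem coreW_ep {n : Type*} [Fintype n] [DecidableEq n] {w a : ℤ} {r : ℤ → ℕ} (hwa : w < 2 * a)
    (hr : ∀ q, a < q → r q = 0) (pp : (r a).Prime) (p3 : 3 ≤ r a) (h2 : 2 * r a < Fintype.card n)
    (h3 : 2 * Fintype.card n ≤ r a ^ 2) : CoreW n w r := by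
  classical
  intro Q' Qi hQ hQ1 hQ2 L hbr hirr hsk hsmp h E Λ hh hE hint hrk X hX
  have ht0 : (0 : ℝ) < ((2 * a - w : ℤ) : ℝ) := by
    have : 0 < 2 * a - w := by omega
    exact_mod_cast this
  refine ep_full98 hQ hQ1 hQ2 hbr hirr hsk hsmp hh hE ht0 rfl ?_ (hrk a) pp p3 h2 h3 X hX
  intro μ hμ
  obtain ⟨q, rfl⟩ := hint μ hμ
  have h1 : q ≤ a := by
    by_contra h1
    push Not at h1
    have h5 := hrk q
    rw [hr q h1] at h5
    apply hμ
    rw [Matrix.rank, Submodule.finrank_eq_zero, LinearMap.range_eq_bot] at h5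
    apply Matrix.toLin'.injective
    rw [map_zero]
    exact h5
  refine ⟨(a - q).toNat, ?_⟩
  have h10 : (((a - q).toNat : ℤ) : ℝ) = ((a - q : ℤ) : ℝ) := by rw [Int.toNat_of_nonneg (by omega)]
  push_cast at h10 ⊢
  rw [h10]
  ring

end MH
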